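import Mathlib

/-! # Finite orbits in countable compact spaces -/

set_option autoImplicit false

open Filter Topology Set

namespace Pool.Agent.T6.H29.Horo

/-- A countable compact Hausdorff space with a group of homeomorphisms contains a finite orbit. -/
theorem exists_finite_orbit {α : Type*} [TopologicalSpace α] [T2Space α] {G : Type*} [Group G]
    (T : G → α → α) (hmul : ∀ g h f, T (g * h) f = T g (T h f))
    (hc : ∀ g, Continuous (T g)) (K : Set α) (hT1 : ∀ f ∈ K, T 1 f = f) (hK : IsCompact K) (hne : K.Nonempty)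
    (hcount : K.Countable) (hinv : ∀ g, ∀ f ∈ K, T g f ∈ K) :
    ∃ f ∈ K, (Set.range fun g => T g f).Finite := by
  classical
  -- minimal closed invariant set
  set P : Set (Set α) := {L | IsClosed L ∧ L.Nonempty ∧ L ⊆ K ∧ ∀ g, ∀ f ∈ L, T g f ∈ L} with hP
  have hKP : K ∈ P := ⟨hK.isClosed, hne, subset_rfl, hinv⟩
  obtain ⟨L, hLK, hL⟩ := zorn_superset_nonempty P (by
    intro c hcP hchain hcne
    refine ⟨⋂₀ c, ⟨isClosed_sInter fun s hs => (hcP hs).1, ?_, ?_, ?_⟩, fun s hs => sInter_subset_of_mem hs⟩
    · have hcne' : Nonempty c := hcne.to_subtype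
      have h1 : (⋂₀ c).Nonempty := by
        rw [sInter_eq_iInter]
        refine IsCompact.nonempty_iInter_of_directed_nonempty_isCompact_isClosed
          (fun s : c => (s : Set α)) ?_ (fun s => (hcP s.2).2.1) (fun s => ?_) (fun s => (hcP s.2).1)
        · intro a b
          rcases hchain.total a.2 b.2 with h | h
          · exact ⟨a, subset_rfl, h⟩
          · exact ⟨b, h, subset_rfl⟩
        · exact hK.of_isClosed_subset (hcP s.2).1 (hcP s.2).2.2.1
      exact h1
    · obtain ⟨s, hs⟩ := hcne
      exact (sInter_subset_of_mem hs).trans (hcP hs).2.2.1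
    · intro g f hf s hs
      exact (hcP hs).2.2.2 g f (hf s hs)) K hKP
  obtain ⟨hLcl, hLne, hLK', hLinv⟩ := hL.prop
  have hLc : IsCompact L := hK.of_isClosed_subset hLcl hLK'
  have hLcount : L.Countable := hcount.mono hLK'
  -- an isolated point
  have : CompactSpace L := isCompact_iff_compactSpace.1 hLc
  have : Countable L := hLcount.to_subtype
  have : Nonempty L := hLne.to_subtype
  obtain ⟨f0, hf0⟩ : ∃ f : L, (interior ({f} : Set L)).Nonempty :=
    nonempty_interior_of_iUnion_of_closed (fun f : L => isClosed_singleton) (by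
      rw [eq_univ_iff_forall]; intro x; exact mem_iUnion.2 ⟨x, rfl⟩)
  have hopen : IsOpen ({f0} : Set L) := by
    obtain ⟨x, hx⟩ := hf0
    have h1 : interior ({f0} : Set L) = {f0} := by
      apply Set.Subset.antisymm interior_subset
      intro y hy
      have h2 : x ∈ ({f0} : Set L) := interior_subset hx
      have h3 : x = f0 := h2
      have h4 : y = f0 := hy
      rw [h4, ← h3]
      rw [h3] at hx ⊢
      exact hx
    rw [← h1]; exact isOpen_interior
  obtain ⟨U, hU, hUL⟩ := isOpen_induced_iff.1 hopen
  have hU1 : (f0 : α) ∈ U := by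
    have : f0 ∈ (Subtype.val ⁻¹' U : Set L) := by rw [hUL]; rfl
    exact this
  have hU2 : ∀ x ∈ L, x ∈ U → x = f0 := by
    intro x hx hxU
    have : (⟨x, hx⟩ : L) ∈ (Subtype.val ⁻¹' U : Set L) := hxU
    rw [hUL, mem_singleton_iff] at this
    exact congrArg Subtype.val this
  -- every point of `L` is in the orbit of `f0`
  have horb : ∀ x ∈ L, ∃ g, T g x = f0 := by
    intro x hx
    -- the closure of the orbit of x is L
    have h1 : closure (range fun g => T g x) ∈ P := by
      refine ⟨isClosed_closure, ⟨_, subset_closure ⟨1, rfl⟩⟩, ?_, ?_⟩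
      · refine (closure_minimal ?_ hLcl).trans hLK'
        rintro _ ⟨g, rfl⟩
        exact hLinv g x hx
      · intro g f hf
        have h2 : MapsTo (T g) (range fun g => T g x) (range fun g => T g x) := by
          rintro _ ⟨h, rfl⟩
          exact ⟨g * h, hmul g h x⟩
        exact map_mem_closure (hc g) hf h2
    have h2 : closure (range fun g => T g x) ⊆ L := closure_minimal (by
      rintro _ ⟨g, rfl⟩
      exact hLinv g x hx) hLcl
    have h3 : L ⊆ closure (range fun g => T g x) := hL.le_of_le h1 h2
    have h4 := h3 f0.2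
    obtain ⟨y, hyU, g, rfl⟩ := mem_closure_iff.1 h4 U hU hU1
    exact ⟨g, hU2 _ (hLinv g x hx) hyU⟩
  -- all points are isolated
  have hdisc : DiscreteTopology L := by
    rw [discreteTopology_iff_isOpen_singleton]
    intro x
    obtain ⟨g, hg⟩ := horb x x.2
    have h1 : ({x} : Set L) = Subtype.val ⁻¹' (T g ⁻¹' U) := by
      ext y
      rw [mem_singleton_iff, mem_preimage, mem_preimage]
      constructor
      · rintro rfl; rw [hg]; exact hU1
      · intro hy
        have h2 := hU2 _ (hLinv g y y.2) hy
        apply Subtype.ext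
        have h3 : T g⁻¹ (T g (y : α)) = T g⁻¹ (T g (x : α)) := by rw [h2, hg]
        rwa [← hmul, ← hmul, inv_mul_cancel, hT1 _ (hLK' y.2), hT1 _ (hLK' x.2)] at h3
    rw [h1]
    exact (hU.preimage (hc g)).preimage continuous_subtype_val
  have hfin : Finite L := finite_of_compact_of_discrete
  refine ⟨f0, hLK' f0.2, ?_⟩
  exact (Set.toFinite L).subset (by
    rintro _ ⟨g, rfl⟩
    exact hLinv g _ f0.2)

end Pool.Agent.T6.H29.Horo
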